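import Mathlib
import Pool.Agent.J4H35.ZZ.Main
import Pool.Agent.J4H35.CR.P2
import Pool.Agent.J4H35.CR.Crit
import Pool.Agent.J4H35.CB.Comb
import Pool.Agent.J4H35.ZC.CM

/-! `DHL[43,2]` with a count and a residue class, from the certificate. -/

open Finset Filter

namespace Pool.Agent.J4H35.ZC

open Pool.Agent.H95R2.BG Pool.Agent.Y826.Z Pool.Agent.J4H35.ZZ Pool.Agent.J4H35.CR Pool.Agent.J4H35.CB

theorem s_lay3 : S_LAY3 := lay3 (crit3 (p23 s_zz3))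

/-- evaluation of the pairs of cells -/
theorem ev (hcomb : S_COMB3) (c c' : Fin 42 → ℕ) (h : rho c + rho c' ≤ 2 * 15241) : Ev3 14769 c c' := by
  classical
  by_cases h1 : Gd3 14769 c
  · by_cases h2 : Gd3 14769 c'
    · refine hcomb 42 14769 (by norm_num) c c' h1 h2 ?_
      unfold rho at h
      rw [if_pos h1, if_pos h2] at h
      rw [div_le_iff₀ (by norm_num)]
      have h3 : ((rad c + rad c' : ℕ) : ℝ) ≤ 30482 := by exact_mod_cast h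
      refine h3.trans ?_
      norm_num
    · left
      unfold rho at h
      rw [if_pos h1, if_neg h2] at h
      omega
  · left
    unfold rho at h
    rw [if_neg h1] at h
    split_ifs at h <;> omega

theorem AA_sub_box : AA ⊆ Box 42 16384 := by
  classical
  unfold AA
  exact filter_subset _ _

/-- all the numerical constants as variables -/
theorem dhl43_aux (K N1 M R L Dm : ℕ) (F : (Fin (K + 1) → ℕ) → ℝ) (A : Finset (Fin K → ℕ)) (ρ : (Fin K → ℕ) → ℕ)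
    (r : ℕ) (μ : Fin r → ℝ) (T : Fin r → ℕ) (W : (Fin K → ℕ) → ℝ)
    (h1 : 0 < N1) (h2 : M ≤ 2 * N1) (h3 : R < 2 * N1) (h4 : Dm < L) (h5 : L ≤ 2 * N1)
    (h6 : ∀ c, F c ≠ 0 → rad c ≤ R + 1) (h7 : A ⊆ Box K M) (h8 : ∀ i, ∀ c ∈ Box K M, UU M F i c ≠ 0 → c ∈ A)
    (h9 : ∀ c ∈ A, rad c ≤ R) (h10 : ∀ c ∈ A, ρ c ≤ L + Dm)
    (h11 : ∀ c ∈ A, ∀ c' ∈ A, ρ c + ρ c' ≤ 2 * L → Ev3 N1 c c')
    (h12 : ∀ l, 0 ≤ μ l) (h13 : ∀ c ∈ A, ρ c + Dm ≤ L → W c ≤ 1)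
    (h14 : ∀ c ∈ A, L < ρ c + Dm → ρ c ≤ L →
      W c ≤ 1 - 1 / (1 + 4 / (2 + (rad c : ℝ) / N1) * ∑ l, if T l ≤ L - ρ c then μ l else 0))
    (h15 : ∀ c ∈ A, L < ρ c → W c ≤ - (4 * (∑ l, if T l < ρ c - L then μ l else 0) / (2 - (rad c : ℝ) / N1)))
    (h16 : 4 * (N1 : ℝ) * ∑ c ∈ Box (K + 1) M, F c ^ 2 < ∑ i, ∑ c ∈ A, W c * UU M F i c ^ 2) :
    ∀ (h : Fin (K + 1) → ℕ), Admissible h → ∀ (Q b : ℕ), Squarefree Q → (∀ i, (b + h i).Coprime Q) →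
    ∀ ε : ℝ, 0 < ε → ∀ᶠ X : ℝ in atTop, X ^ (1 - ε) ≤ ((goodN h Q b X).card : ℝ) :=
  s_lay3 h1 h2 h3 h4 h5 F h6 A h7 h8 h9 ρ h10 h11 r μ h12 T W h13 h14 h15 h16

attribute [local irreducible] FF UU Box AA rho WW mu

theorem dhl43_of (hB : S_KB) (hC : S_KC) (hE : S_KE) : Dhl43Count := by
  have a8 : ∀ (i : Fin (42 + 1)), ∀ c ∈ Box 42 16384, UU 16384 (FF (K := 42 + 1)) i c ≠ 0 → c ∈ AA := hB.2.2.1
  have a6 : ∀ c : Fin (42 + 1) → ℕ, FF c ≠ 0 → rad c ≤ 16425 + 1 := hB.1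
  have a9 := hC.2.1
  have a10 := hC.2.2.1
  have a13 := hC.2.2.2.1
  have a14 := hC.2.2.2.2.1
  have a15 := hC.2.2.2.2.2.1
  have a16 : 4 * ((14769 : ℕ) : ℝ) * ∑ c ∈ Box (42 + 1) 16384, FF c ^ 2 <
    ∑ i : Fin (42 + 1), ∑ c ∈ AA, WW c * UU 16384 FF i c ^ 2 := hE
  have a11 : ∀ c ∈ AA, ∀ c' ∈ AA, rho c + rho c' ≤ 2 * 15241 → Ev3 14769 c c' := fun c _ c' _ h => ev comb3 c c' h
  have key := dhl43_aux 42 14769 16384 16425 15241 2144 (FF (K := 42 + 1)) AA rho 67 mu (fun l => 32 * (l : ℕ)) WW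
    (by norm_num) (by norm_num) (by norm_num) (by norm_num) (by norm_num) a6 AA_sub_box a8
    a9 a10 a11 hC.1 a13 a14 a15 a16
  exact key

end Pool.Agent.J4H35.ZC
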