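import Pool.Agent.J4H35.ZC.CD

/-! The kernel computation, total masses of `g^2 + 1`. -/

namespace Pool.Agent.J4H35.ZC

open Pool.Agent.H95R2.BG.Cert (dc)

theorem chk0 : Nat.ble (gen 0 (fun c => Nat.add (Nat.mul (g c) (g c)) 1)) 1080000000 = true := by decide +kernel

theorem chk1 : Nat.ble (gen 0 (fun c => Nat.mul (Nat.add (Nat.mul (g c) (g c)) 1) (ph c))) (Nat.pow 2 37) = true := by
  decide +kernel

theorem chk2 : Nat.ble (gen 0 (fun c => Nat.mul (Nat.add (Nat.mul (g c) (g c)) 1) (Nat.mul (ph c) (ph c))))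
    (Nat.pow 2 46) = true := by decide +kernel

end Pool.Agent.J4H35.ZC
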