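import Pool.Agent.J4H35.ZC.CD

/-! The kernel computation, main inequality. -/

namespace Pool.Agent.J4H35.ZC

/-- the main inequality -/
theorem chk : Nat.ble (Nat.add lhs 1) rhs = true := by decide +kernel

end Pool.Agent.J4H35.ZC
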