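import Pool.Agent.J4H35.ZC.CD

/-! The kernel computation, event 1. -/

namespace Pool.Agent.J4H35.ZC

theorem chkE1 : Nat.ble (LL (vw 1967 118) TD 0) (Nat.add (LL (vw 1967 118) 0 TD) B1) = true := by decide +kernel

theorem chkC1 : Nat.ble (Nat.mul B1 (Nat.pow 2048 252)) (Nat.mul C1 (Nat.pow 1967 252)) = true := by decide +kernel

end Pool.Agent.J4H35.ZC
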