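import Pool.Agent.J4H35.ZC.CD

/-! The kernel computation, event 6. -/

namespace Pool.Agent.J4H35.ZC

theorem chkE6 : Nat.ble (LL (vw 2039 3160) TD 0) (Nat.add (LL (vw 2039 3160) 0 TD) B6) = true := by decide +kernel

theorem chkC6 : Nat.ble (Nat.mul B6 (Nat.pow 2048 3147)) (Nat.mul C6 (Nat.pow 2039 3147)) = true := by decide +kernel

end Pool.Agent.J4H35.ZC
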