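import Mathlib
import Pool.Agent.J4H35.ZC.CM
import Pool.Agent.J4H35.ZC.CK
import Pool.Agent.J4H35.ZC.CK0
import Pool.Agent.J4H35.ZC.CK1
import Pool.Agent.J4H35.ZC.CK2
import Pool.Agent.J4H35.ZC.CK3
import Pool.Agent.J4H35.ZC.CK4
import Pool.Agent.J4H35.ZC.CK5
import Pool.Agent.J4H35.ZC.CK6
import Pool.Agent.J4H35.ZC.CK7

/-! The final inequality of the certificate for `DHL[43,2]`. -/

set_option autoImplicit false

open Finset

namespace Pool.Agent.J4H35.ZC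

open Pool.Agent.H95R2.BG Pool.Agent.Y826.Z Pool.Agent.J4H35.CB
open Pool.Agent.H95R2.BG.Cert (pk cf pkS nrm G1 G2 look)

/-- first projection; it only serves to keep the kernel from evaluating closed terms -/
abbrev KEpr (a _x : ℕ) : ℕ := a

theorem KElhs_eq (x : ℕ) : lhs = Nat.add (Nat.mul 61945675776 (KEpr PS x))
    (Nat.mul 43 (Nat.add (KEpr (LL q0 GN GP) x) (KEpr CT x))) := rfl

theorem KErhs_eq (x : ℕ) : rhs = Nat.add (Nat.mul 43 (KEpr (LL q0 GP GN) x))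
    (Nat.mul 61945675776 (KEpr MS x)) := rfl

theorem KECT_eq (x : ℕ) : CT = Nat.add (Nat.add (Nat.add (Nat.add (Nat.add (Nat.add (Nat.add (KEpr C0 x) (KEpr C1 x))
    (KEpr C2 x)) (KEpr C3 x)) (KEpr C4 x)) (KEpr C5 x)) (KEpr C6 x)) (KEpr C7 x) := rfl

theorem KElt (a b : ℕ) (h : Nat.ble (Nat.add a 1) b = true) : a < b := Nat.le_of_ble_eq_true h

theorem KEcast (a b P R C L M : ℕ) (ha : a = Nat.add (Nat.mul 61945675776 P) (Nat.mul 43 (Nat.add R C)))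
    (hb : b = Nat.add (Nat.mul 43 L) (Nat.mul 61945675776 M)) (h : a < b) :
    (61945675776 : ℝ) * P + 43 * (R + C) < 43 * L + 61945675776 * M := by
  have h' : 61945675776 * P + 43 * (R + C) < 43 * L + 61945675776 * M := by
    rw [ha, hb] at h
    exact h
  exact_mod_cast h'

theorem KEmain : (61945675776 : ℝ) * (PS : ℕ) + 43 * ((LL q0 GN GP : ℕ) + (CT : ℕ)) <
    43 * (LL q0 GP GN : ℕ) + 61945675776 * (MS : ℕ) :=
  KEcast lhs rhs (KEpr PS 0) (KEpr (LL q0 GN GP) 0) (KEpr CT 0) (KEpr (LL q0 GP GN) 0) (KEpr MS 0)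
    (KElhs_eq 0) (KErhs_eq 0) (KElt lhs rhs chk)

theorem KEcastC (C C0 C1 C2 C3 C4 C5 C6 C7 : ℕ) (h : C = Nat.add (Nat.add (Nat.add (Nat.add (Nat.add (Nat.add
    (Nat.add C0 C1) C2) C3) C4) C5) C6) C7) :
    (C : ℝ) = C0 + C1 + C2 + C3 + C4 + C5 + C6 + C7 := by
  have h' : C = C0 + C1 + C2 + C3 + C4 + C5 + C6 + C7 := h
  exact_mod_cast h'

theorem KECT : ((CT : ℕ) : ℝ) = (C0 : ℕ) + (C1 : ℕ) + (C2 : ℕ) + (C3 : ℕ) + (C4 : ℕ) + (C5 : ℕ) + (C6 : ℕ) + (C7 : ℕ) :=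
  KEcastC CT (KEpr C0 0) (KEpr C1 0) (KEpr C2 0) (KEpr C3 0) (KEpr C4 0) (KEpr C5 0) (KEpr C6 0) (KEpr C7 0)
    (KECT_eq 0)

theorem KEcE (x y z : ℕ) (h : Nat.ble x (Nat.add y z) = true) : (x : ℝ) - y ≤ z := by
  have h' : x ≤ y + z := Nat.le_of_ble_eq_true h
  have h'' : (x : ℝ) ≤ y + z := by exact_mod_cast h'
  linarith

theorem KEcC (b c a n : ℕ) (h : Nat.ble (Nat.mul b (Nat.pow 2048 n)) (Nat.mul c (Nat.pow a n)) = true) :
    (b : ℝ) * 2048 ^ n ≤ c * (a : ℝ) ^ n := by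
  have h' : b * 2048 ^ n ≤ c * a ^ n := Nat.le_of_ble_eq_true h
  exact_mod_cast h'

/-! ### leaves -/

theorem KEleaf (T T' n x1 x2 x3 y1 y2 y3 : ℕ) :
    (leafK T T' n x1 x2 x3 y1 y2 y3 : ℝ) - (leafK T' T n x1 x2 x3 y1 y2 y3 : ℝ) =
      ((wt T n : ℝ) - wt T' n) *
        (((y1 : ℝ) - y2) ^ 2 * x1 - 2 * ((y1 : ℝ) - y2) * y3 * x2 + (y3 : ℝ) ^ 2 * x3) := by
  have h : ∀ a' b', a' = wt T n → b' = wt T' n →
      (leafK T T' n x1 x2 x3 y1 y2 y3 : ℕ) = a' * ((y1 * y1 + y2 * y2) * x1 + (2 * (y2 * y3) * x2 + y3 * y3 * x3)) +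
        b' * (2 * (y1 * y2 * x1 + y1 * y3 * x2)) ∧
      (leafK T' T n x1 x2 x3 y1 y2 y3 : ℕ) = b' * ((y1 * y1 + y2 * y2) * x1 + (2 * (y2 * y3) * x2 + y3 * y3 * x3)) +
        a' * (2 * (y1 * y2 * x1 + y1 * y3 * x2)) := by
    intro a' b' h1 h2
    subst h1 h2
    exact ⟨rfl, rfl⟩
  obtain ⟨h1, h2⟩ := h _ _ rfl rfl
  rw [h1, h2]
  push_cast
  ring

theorem wt_zero (n : ℕ) : wt 0 n = 0 := by
  have h : ∀ a b : ℕ, Nat.land (Nat.shiftRight 0 a) b = 0 := by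
    intro a b
    change (0 >>> a) &&& b = 0
    rw [Nat.zero_shiftRight, Nat.zero_and]
  exact h _ _

/-- the meaning of a difference of two packed sums -/
theorem LL_sub (q : ℕ → ℕ) (hq : ∀ T T' : ℕ,
    LL q T T' = ∑ n ∈ range 16384, leafK T T' n (cf (Ps q ^ 42) n) (cf (G1 42 (Ps q) (Ps1 q)) n)
      (cf (G2 42 (Ps q) (Ps1 q) (Ps2 q)) n) (ap n) (am n) (bb n)) (T T' : ℕ) :
    ((LL q T T' : ℕ) : ℝ) - (LL q T' T : ℕ) =
      ∑ n ∈ range 16384, ((wt T n : ℝ) - wt T' n) * XQ q n := by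
  rw [hq T T', hq T' T, Nat.cast_sum, Nat.cast_sum, ← Finset.sum_sub_distrib]
  refine Finset.sum_congr rfl fun n _ => ?_
  rw [KEleaf]
  rfl

theorem ke_g_zero (c : ℕ) (h : 9821 ≤ c) : g c = 0 := by
  have h1 : Nat.ble (Nat.add c 1) 9821 = false := by
    rw [Bool.eq_false_iff]
    intro h2
    have h3 : c + 1 ≤ 9821 := Nat.le_of_ble_eq_true h2
    omega
  unfold g
  rw [h1]
  rfl

theorem mem_AA (c : Fin 42 → ℕ) : c ∈ AA ↔ c ∈ Box 42 16384 ∧ ∑ j, c j < 16384 ∧ ∀ j, c j < 9821 := by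
  unfold AA
  rw [Finset.mem_filter]

attribute [local irreducible] AA Box LL

theorem AA_sub : AA ⊆ Box 42 16384 := fun c hc => ((mem_AA c).1 hc).1

/-- the sum over the cells with a weight depending only on the radius -/
theorem sum_AA (hB : S_KB) (w : ℕ → ℝ) (i : Fin 43) :
    ∑ c ∈ AA, w (∑ j, c j) * UU 16384 FF i c ^ 2 = ∑ n ∈ range 16384, w n * XQ q0 n := by
  classical
  rw [← hB.2.2.2.2 q0 w]
  rw [← Finset.sum_subset AA_sub]
  · refine Finset.sum_congr rfl fun c hc => ?_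
    have hc1 : ∑ j, c j < 16384 := ((mem_AA c).1 hc).2.1
    rw [if_pos hc1, hB.2.2.2.1 i c hc1, mul_pow, ← Finset.prod_pow]
    congr 2
    refine Finset.prod_congr rfl fun j _ => ?_
    have e : q0 (c j) = g (c j) * g (c j) := rfl
    rw [e, Nat.cast_mul, sq]
  · intro c hc hcn
    by_cases h1 : ∑ j, c j < 16384
    · rw [if_pos h1]
      have h2 : ∃ j, 9821 ≤ c j := by
        by_contra hno
        push Not at hno
        exact hcn ((mem_AA c).2 ⟨hc, h1, hno⟩)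
      obtain ⟨j, hj⟩ := h2
      have e : q0 (c j) = g (c j) * g (c j) := rfl
      have h3 : ∏ j, (q0 (c j) : ℝ) = 0 := by
        apply Finset.prod_eq_zero (Finset.mem_univ j)
        rw [e, ke_g_zero _ hj]
        norm_num
      rw [h3]
      ring
    · rw [if_neg h1]

/-- the contribution of an event -/
theorem event_bound (hA : S_KA) (hB : S_KB) (hD : S_KD) (a X nf B C : ℕ) (ha : 0 < a) (ha2 : a < 2048)
    (hE : ((LL (vw a X) TD 0 : ℕ) : ℝ) - (LL (vw a X) 0 TD : ℕ) ≤ B) (hC : (B : ℝ) * 2048 ^ nf ≤ C * (a : ℝ) ^ nf)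
    (i : Fin 43) (s : Finset (Fin 42 → ℕ)) (hs : s ⊆ AA) (hs2 : ∀ c ∈ s, Evt X nf c) :
    ∑ c ∈ s, (wt TD (∑ j, c j) : ℝ) * UU 16384 FF i c ^ 2 ≤ C := by
  classical
  have ha0 : (0 : ℝ) < a := by exact_mod_cast ha
  have hpow : (0 : ℝ) < (a : ℝ) ^ nf := pow_pos ha0 _
  have h1 : ((LL (vw a X) TD 0 : ℕ) : ℝ) - (LL (vw a X) 0 TD : ℕ) =
      ∑ n ∈ range 16384, (wt TD n : ℝ) * XQ (vw a X) n := by
    rw [LL_sub (vw a X) (hA.1 (vw a X) (fun i _ => hD.2.2 a X ha2 i)) TD 0]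
    refine Finset.sum_congr rfl fun n _ => ?_
    rw [wt_zero, Nat.cast_zero, sub_zero]
  have h2 : ∑ n ∈ range 16384, (wt TD n : ℝ) * XQ (vw a X) n =
      ∑ c ∈ Box 42 16384, (if ∑ j, c j < 16384 then (wt TD (∑ j, c j) : ℝ) *
        ((∏ j, (vw a X (c j) : ℝ)) * xi c ^ 2) else 0) :=
    (hB.2.2.2.2 (vw a X) (fun n => (wt TD n : ℝ))).symm
  have hterm : ∀ c ∈ Box 42 16384, 0 ≤ (if ∑ j, c j < 16384 then (wt TD (∑ j, c j) : ℝ) *
        ((∏ j, (vw a X (c j) : ℝ)) * xi c ^ 2) else 0) := by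
    intro c _
    split_ifs
    · exact mul_nonneg (Nat.cast_nonneg _) (mul_nonneg (Finset.prod_nonneg fun j _ => Nat.cast_nonneg _) (sq_nonneg _))
    · exact le_rfl
  have h3 : ∑ c ∈ s, (wt TD (∑ j, c j) : ℝ) * ((∏ j, (vw a X (c j) : ℝ)) * xi c ^ 2) ≤ B := by
    calc ∑ c ∈ s, (wt TD (∑ j, c j) : ℝ) * ((∏ j, (vw a X (c j) : ℝ)) * xi c ^ 2)
        = ∑ c ∈ s, (if ∑ j, c j < 16384 then (wt TD (∑ j, c j) : ℝ) *
            ((∏ j, (vw a X (c j) : ℝ)) * xi c ^ 2) else 0) := by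
          refine Finset.sum_congr rfl fun c hc => ?_
          rw [if_pos ((mem_AA c).1 (hs hc)).2.1]
      _ ≤ ∑ c ∈ Box 42 16384, (if ∑ j, c j < 16384 then (wt TD (∑ j, c j) : ℝ) *
            ((∏ j, (vw a X (c j) : ℝ)) * xi c ^ 2) else 0) :=
          Finset.sum_le_sum_of_subset_of_nonneg (hs.trans AA_sub) (fun c hc _ => hterm c hc)
      _ ≤ B := by rw [← h2, ← h1]; exact hE
  have h4 : ∀ c ∈ s, (wt TD (∑ j, c j) : ℝ) * UU 16384 FF i c ^ 2 * ((a : ℝ) / 2048) ^ nf ≤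
      (wt TD (∑ j, c j) : ℝ) * ((∏ j, (vw a X (c j) : ℝ)) * xi c ^ 2) := by
    intro c hc
    have hc1 : ∑ j, c j < 16384 := ((mem_AA c).1 (hs hc)).2.1
    have h5 := hD.2.1 a X nf ha2 c (hs2 c hc)
    rw [hB.2.2.2.1 i c hc1, mul_pow, ← Finset.prod_pow, mul_assoc]
    apply mul_le_mul_of_nonneg_left _ (Nat.cast_nonneg _)
    have e : ∏ j, (g (c j) : ℝ) ^ 2 = ∏ j, ((g (c j) * g (c j) : ℕ) : ℝ) := by
      refine Finset.prod_congr rfl fun j _ => ?_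
      rw [Nat.cast_mul, sq]
    rw [e]
    calc (∏ j, ((g (c j) * g (c j) : ℕ) : ℝ)) * xi c ^ 2 * ((a : ℝ) / 2048) ^ nf
        = ((∏ j, ((g (c j) * g (c j) : ℕ) : ℝ)) * ((a : ℝ) / 2048) ^ nf) * xi c ^ 2 := by ring
      _ ≤ (∏ j, (vw a X (c j) : ℝ)) * xi c ^ 2 := mul_le_mul_of_nonneg_right h5 (sq_nonneg _)
  have h6 : (∑ c ∈ s, (wt TD (∑ j, c j) : ℝ) * UU 16384 FF i c ^ 2) * ((a : ℝ) / 2048) ^ nf ≤ B := by
    rw [Finset.sum_mul]
    exact (Finset.sum_le_sum h4).trans h3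
  rw [div_pow, mul_div_assoc', div_le_iff₀ (by positivity)] at h6
  exact le_of_mul_le_mul_right (h6.trans hC) hpow

theorem KEev (a X B : ℕ) (h : Nat.ble (LL (vw a X) TD 0) (Nat.add (LL (vw a X) 0 TD) B) = true) :
    ((LL (vw a X) TD 0 : ℕ) : ℝ) - (LL (vw a X) 0 TD : ℕ) ≤ B := KEcE _ _ _ h

theorem KEhE0 : ((LL (vw 1917 81) TD 0 : ℕ) : ℝ) - (LL (vw 1917 81) 0 TD : ℕ) ≤ (B0 : ℕ) := by
  refine KEev 1917 81 B0 ?_
  with_reducible exact chkE0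

theorem KEhC0 : ((B0 : ℕ) : ℝ) * 2048 ^ 115 ≤ ((C0 : ℕ) : ℝ) * ((1917 : ℕ) : ℝ) ^ 115 := by
  refine KEcC B0 C0 1917 115 ?_
  with_reducible exact chkC0

theorem KEhE1 : ((LL (vw 1967 118) TD 0 : ℕ) : ℝ) - (LL (vw 1967 118) 0 TD : ℕ) ≤ (B1 : ℕ) := by
  refine KEev 1967 118 B1 ?_
  with_reducible exact chkE1

theorem KEhC1 : ((B1 : ℕ) : ℝ) * 2048 ^ 252 ≤ ((C1 : ℕ) : ℝ) * ((1967 : ℕ) : ℝ) ^ 252 := by
  refine KEcC B1 C1 1967 252 ?_
  with_reducible exact chkC1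

theorem KEhE2 : ((LL (vw 2012 310) TD 0 : ℕ) : ℝ) - (LL (vw 2012 310) 0 TD : ℕ) ≤ (B2 : ℕ) := by
  refine KEev 2012 310 B2 ?_
  with_reducible exact chkE2

theorem KEhC2 : ((B2 : ℕ) : ℝ) * 2048 ^ 822 ≤ ((C2 : ℕ) : ℝ) * ((2012 : ℕ) : ℝ) ^ 822 := by
  refine KEcC B2 C2 2012 822 ?_
  with_reducible exact chkC2

theorem KEhE3 : ((LL (vw 2023 620) TD 0 : ℕ) : ℝ) - (LL (vw 2023 620) 0 TD : ℕ) ≤ (B3 : ℕ) := by
  refine KEev 2023 620 B3 ?_
  with_reducible exact chkE3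

theorem KEhC3 : ((B3 : ℕ) : ℝ) * 2048 ^ 1310 ≤ ((C3 : ℕ) : ℝ) * ((2023 : ℕ) : ℝ) ^ 1310 := by
  refine KEcC B3 C3 2023 1310 ?_
  with_reducible exact chkC3

theorem KEhE4 : ((LL (vw 2033 1595) TD 0 : ℕ) : ℝ) - (LL (vw 2033 1595) 0 TD : ℕ) ≤ (B4 : ℕ) := by
  refine KEev 2033 1595 B4 ?_
  with_reducible exact chkE4

theorem KEhC4 : ((B4 : ℕ) : ℝ) * 2048 ^ 2169 ≤ ((C4 : ℕ) : ℝ) * ((2033 : ℕ) : ℝ) ^ 2169 := by
  refine KEcC B4 C4 2033 2169 ?_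
  with_reducible exact chkC4

theorem KEhE5 : ((LL (vw 2037 2628) TD 0 : ℕ) : ℝ) - (LL (vw 2037 2628) 0 TD : ℕ) ≤ (B5 : ℕ) := by
  refine KEev 2037 2628 B5 ?_
  with_reducible exact chkE5

theorem KEhC5 : ((B5 : ℕ) : ℝ) * 2048 ^ 2677 ≤ ((C5 : ℕ) : ℝ) * ((2037 : ℕ) : ℝ) ^ 2677 := by
  refine KEcC B5 C5 2037 2677 ?_
  with_reducible exact chkC5

theorem KEhE6 : ((LL (vw 2039 3160) TD 0 : ℕ) : ℝ) - (LL (vw 2039 3160) 0 TD : ℕ) ≤ (B6 : ℕ) := by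
  refine KEev 2039 3160 B6 ?_
  with_reducible exact chkE6

theorem KEhC6 : ((B6 : ℕ) : ℝ) * 2048 ^ 3147 ≤ ((C6 : ℕ) : ℝ) * ((2039 : ℕ) : ℝ) ^ 3147 := by
  refine KEcC B6 C6 2039 3147 ?_
  with_reducible exact chkC6

theorem KEhE7 : ((LL (vw 2041 5242) TD 0 : ℕ) : ℝ) - (LL (vw 2041 5242) 0 TD : ℕ) ≤ (B7 : ℕ) := by
  refine KEev 2041 5242 B7 ?_
  with_reducible exact chkE7

theorem KEhC7 : ((B7 : ℕ) : ℝ) * 2048 ^ 3458 ≤ ((C7 : ℕ) : ℝ) * ((2041 : ℕ) : ℝ) ^ 3458 := by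
  refine KEcC B7 C7 2041 3458 ?_
  with_reducible exact chkC7

/-- the contribution of the bad cells -/
theorem bad_bound (hA : S_KA) (hB : S_KB) (hD : S_KD) (i : Fin 43) (s : Finset (Fin 42 → ℕ)) (hs : s ⊆ AA)
    (hs2 : ∀ c ∈ s, ¬ Gd3 14769 c) :
    ∑ c ∈ s, (wt TD (∑ j, c j) : ℝ) * UU 16384 FF i c ^ 2 ≤ ((CT : ℕ) : ℝ) := by
  classical
  have hterm : ∀ c : Fin 42 → ℕ, 0 ≤ (wt TD (∑ j, c j) : ℝ) * UU 16384 FF i c ^ 2 :=
    fun c => mul_nonneg (Nat.cast_nonneg _) (sq_nonneg _)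
  have hev : ∀ (X nf : ℕ), (∑ c ∈ s, if Evt X nf c then (wt TD (∑ j, c j) : ℝ) * UU 16384 FF i c ^ 2 else 0) =
      ∑ c ∈ s.filter (fun c => Evt X nf c), (wt TD (∑ j, c j) : ℝ) * UU 16384 FF i c ^ 2 := fun X nf =>
    (Finset.sum_filter _ _).symm
  have h0 := event_bound hA hB hD 1917 81 115 B0 C0 (by norm_num) (by norm_num) KEhE0 KEhC0 i (s.filter (fun c => Evt 81 115 c)) ((Finset.filter_subset _ _).trans hs)
    (fun c hc => (Finset.mem_filter.1 hc).2)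
  have h1 := event_bound hA hB hD 1967 118 252 B1 C1 (by norm_num) (by norm_num) KEhE1 KEhC1 i (s.filter (fun c => Evt 118 252 c)) ((Finset.filter_subset _ _).trans hs)
    (fun c hc => (Finset.mem_filter.1 hc).2)
  have h2 := event_bound hA hB hD 2012 310 822 B2 C2 (by norm_num) (by norm_num) KEhE2 KEhC2 i (s.filter (fun c => Evt 310 822 c)) ((Finset.filter_subset _ _).trans hs)
    (fun c hc => (Finset.mem_filter.1 hc).2)
  have h3 := event_bound hA hB hD 2023 620 1310 B3 C3 (by norm_num) (by norm_num) KEhE3 KEhC3 i (s.filter (fun c => Evt 620 1310 c)) ((Finset.filter_subset _ _).trans hs)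
    (fun c hc => (Finset.mem_filter.1 hc).2)
  have h4 := event_bound hA hB hD 2033 1595 2169 B4 C4 (by norm_num) (by norm_num) KEhE4 KEhC4 i (s.filter (fun c => Evt 1595 2169 c)) ((Finset.filter_subset _ _).trans hs)
    (fun c hc => (Finset.mem_filter.1 hc).2)
  have h5 := event_bound hA hB hD 2037 2628 2677 B5 C5 (by norm_num) (by norm_num) KEhE5 KEhC5 i (s.filter (fun c => Evt 2628 2677 c)) ((Finset.filter_subset _ _).trans hs)
    (fun c hc => (Finset.mem_filter.1 hc).2)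
  have h6 := event_bound hA hB hD 2039 3160 3147 B6 C6 (by norm_num) (by norm_num) KEhE6 KEhC6 i (s.filter (fun c => Evt 3160 3147 c)) ((Finset.filter_subset _ _).trans hs)
    (fun c hc => (Finset.mem_filter.1 hc).2)
  have h7 := event_bound hA hB hD 2041 5242 3458 B7 C7 (by norm_num) (by norm_num) KEhE7 KEhC7 i (s.filter (fun c => Evt 5242 3458 c)) ((Finset.filter_subset _ _).trans hs)
    (fun c hc => (Finset.mem_filter.1 hc).2)
  have hpt : ∀ c ∈ s, (wt TD (∑ j, c j) : ℝ) * UU 16384 FF i c ^ 2 ≤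
      (if Evt 81 115 c then (wt TD (∑ j, c j) : ℝ) * UU 16384 FF i c ^ 2 else 0) +
      (if Evt 118 252 c then (wt TD (∑ j, c j) : ℝ) * UU 16384 FF i c ^ 2 else 0) +
      (if Evt 310 822 c then (wt TD (∑ j, c j) : ℝ) * UU 16384 FF i c ^ 2 else 0) +
      (if Evt 620 1310 c then (wt TD (∑ j, c j) : ℝ) * UU 16384 FF i c ^ 2 else 0) +
      (if Evt 1595 2169 c then (wt TD (∑ j, c j) : ℝ) * UU 16384 FF i c ^ 2 else 0) +
      (if Evt 2628 2677 c then (wt TD (∑ j, c j) : ℝ) * UU 16384 FF i c ^ 2 else 0) +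
      (if Evt 3160 3147 c then (wt TD (∑ j, c j) : ℝ) * UU 16384 FF i c ^ 2 else 0) +
      (if Evt 5242 3458 c then (wt TD (∑ j, c j) : ℝ) * UU 16384 FF i c ^ 2 else 0) := by
    intro c hc
    have hx := hterm c
    generalize (wt TD (∑ j, c j) : ℝ) * UU 16384 FF i c ^ 2 = x at hx ⊢
    have hif : ∀ (p : Prop) [Decidable p], 0 ≤ (if p then x else 0) := by
      intro p _
      split_ifs
      · exact hx
      · exact le_rfl
    have q0 := hif (Evt 81 115 c)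
    have q1 := hif (Evt 118 252 c)
    have q2 := hif (Evt 310 822 c)
    have q3 := hif (Evt 620 1310 c)
    have q4 := hif (Evt 1595 2169 c)
    have q5 := hif (Evt 2628 2677 c)
    have q6 := hif (Evt 3160 3147 c)
    have q7 := hif (Evt 5242 3458 c)
    rcases hD.1 c (hs hc) (hs2 c hc) with h | h | h | h | h | h | h | h
    · rw [if_pos h] at q0 ⊢; linarith
    · rw [if_pos h] at q1 ⊢; linarith
    · rw [if_pos h] at q2 ⊢; linarith
    · rw [if_pos h] at q3 ⊢; linarith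
    · rw [if_pos h] at q4 ⊢; linarith
    · rw [if_pos h] at q5 ⊢; linarith
    · rw [if_pos h] at q6 ⊢; linarith
    · rw [if_pos h] at q7 ⊢; linarith
  have hsum := Finset.sum_le_sum hpt
  simp only [Finset.sum_add_distrib] at hsum
  rw [hev, hev, hev, hev, hev, hev, hev, hev] at hsum
  rw [KECT]
  linarith

/-- the sum over one marginal -/
theorem one_marginal (hA : S_KA) (hB : S_KB) (hC : S_KC) (hD : S_KD) (i : Fin 43) :
    ((LL q0 GP GN : ℕ) : ℝ) - (LL q0 GN GP : ℕ) - (CT : ℕ) ≤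
      1048576 * ∑ c ∈ AA, WW c * UU 16384 FF i c ^ 2 := by
  classical
  have hwd := hC.2.2.2.2.2.2
  have h1 : ((LL q0 GP GN : ℕ) : ℝ) - (LL q0 GN GP : ℕ) =
      1048576 * ∑ c ∈ AA, wG (∑ j, c j) * UU 16384 FF i c ^ 2 := by
    rw [LL_sub q0 (hA.1 q0 (fun i _ => Nat.le_succ _)) GP GN, sum_AA hB wG i, Finset.mul_sum]
    refine Finset.sum_congr rfl fun n _ => ?_
    unfold wG
    ring
  have h2 := bad_bound hA hB hD i (AA.filter (fun c => ¬ Gd3 14769 c)) (Finset.filter_subset _ _)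
    (fun c hc => (Finset.mem_filter.1 hc).2)
  have h3 : ∑ c ∈ AA, WW c * UU 16384 FF i c ^ 2 = ∑ c ∈ AA, wG (∑ j, c j) * UU 16384 FF i c ^ 2 -
      (∑ c ∈ AA.filter (fun c => ¬ Gd3 14769 c), (wt TD (∑ j, c j) : ℝ) * UU 16384 FF i c ^ 2) / 1048576 := by
    rw [Finset.sum_filter, Finset.sum_div, ← Finset.sum_sub_distrib]
    refine Finset.sum_congr rfl fun c hc => ?_
    have hn : ∑ j, c j < 16384 := ((mem_AA c).1 hc).2.1
    have hw := hwd _ hn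
    unfold WW
    by_cases hg : Gd3 14769 c
    · rw [if_pos hg, if_neg (not_not.2 hg)]
      ring
    · rw [if_neg hg, if_pos hg]
      have e : wB (∑ j, c j) = wG (∑ j, c j) - (wt TD (∑ j, c j) : ℝ) / 1048576 := by
        rw [← hw]; ring
      rw [e]
      ring
  rw [h3, mul_sub, ← h1]
  have e : (1048576 : ℝ) * ((∑ c ∈ AA.filter (fun c => ¬ Gd3 14769 c),
      (wt TD (∑ j, c j) : ℝ) * UU 16384 FF i c ^ 2) / 1048576) =
      ∑ c ∈ AA.filter (fun c => ¬ Gd3 14769 c), (wt TD (∑ j, c j) : ℝ) * UU 16384 FF i c ^ 2 := by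
    field_simp
  rw [e]
  linarith

theorem KEF (hA : S_KA) (hB : S_KB) : ∑ c ∈ Box 43 16384, FF c ^ 2 = ((PS : ℕ) : ℝ) - (MS : ℕ) := by
  have e1 : ((PS : ℕ) : ℝ) = _ := congrArg (Nat.cast : ℕ → ℝ) hA.2.1
  have e2 : ((MS : ℕ) : ℝ) = _ := congrArg (Nat.cast : ℕ → ℝ) hA.2.2
  rw [e1, e2, hB.2.1, Nat.cast_sum, Nat.cast_sum, ← Finset.sum_sub_distrib]
  apply Finset.sum_congr rfl
  intro n _
  push_cast
  ring

theorem KEfin (S : ℝ) (U : Fin 43 → ℝ) (P M L R C : ℝ) (hS : S = P - M) (hU : ∀ i, L - R - C ≤ 1048576 * U i)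
    (h : 61945675776 * P + 43 * (R + C) < 43 * L + 61945675776 * M) :
    4 * ((14769 : ℕ) : ℝ) * S < ∑ i : Fin 43, U i := by
  have h1 : ∑ _i : Fin 43, (L - R - C) ≤ ∑ i : Fin 43, 1048576 * U i := Finset.sum_le_sum fun i _ => hU i
  rw [Finset.sum_const, Finset.card_univ, Fintype.card_fin, nsmul_eq_mul, ← Finset.mul_sum] at h1
  rw [hS]
  push_cast at h1 ⊢
  linarith

/-- task KE: the final inequality -/
theorem ke (hA : S_KA) (hB : S_KB) (hC : S_KC) (hD : S_KD) : S_KE :=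
  KEfin _ (fun i => ∑ c ∈ AA, WW c * UU 16384 FF i c ^ 2) _ _ _ _ _ (KEF hA hB)
    (fun i => one_marginal hA hB hC hD i) KEmain

end Pool.Agent.J4H35.ZC

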