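import Mathlib
import Pool.Agent.J4H35.ZC.Dhl
import Pool.Agent.J4H35.ZC.KAm
import Pool.Agent.J4H35.ZC.KB
import Pool.Agent.J4H35.ZC.KC
import Pool.Agent.J4H35.ZC.KD
import Pool.Agent.J4H35.ZC.KE

/-! `DHL[43,2]` with a count and a residue class, unconditionally. -/

open Finset Filter

namespace Pool.Agent.J4H35.ZC

theorem s_ke : S_KE := ke Pool.Agent.J4H35.ZA.ka kb Pool.Agent.J4H35.ZKC.kc Pool.Agent.J4H35.ZKD.kd

/-- `DHL[43,2]` -/
theorem dhl43 : Dhl43Count := dhl43_of kb Pool.Agent.J4H35.ZKC.kc s_ke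

end Pool.Agent.J4H35.ZC
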