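import Pool.Agent.J4H35.ZC.Con43

/-! differences of consecutive primes from admissible 43-tuples
(adapted from `H95R2/BG/{GapPairs,GapSets}.lean`). -/

set_option autoImplicit false

open Finset Filter

namespace Pool.Agent.J4H35.ZC

open Pool.Agent.H95R2.BG (Admissible TwoPrimes goodN)


/-- indices `m` with `p_m ≤ x` and `p_{m+1} - p_m = d` -/
def gapSet (d : ℤ) (x : ℝ) : Set ℕ :=
  {m : ℕ | (Nat.nth Nat.Prime m : ℝ) ≤ x ∧ (Nat.nth Nat.Prime (m + 1) : ℤ) - Nat.nth Nat.Prime m = d}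

theorem gapSet_finite (d : ℤ) (x : ℝ) : (gapSet d x).Finite := by
  rcases lt_or_ge x 0 with hx | hx
  · have : gapSet d x = ∅ := by
      ext m
      simp only [gapSet, Set.mem_ofPred_eq, Set.mem_empty_iff_false, iff_false, not_and]
      intro h
      exfalso
      have : (0 : ℝ) ≤ (Nat.nth Nat.Prime m : ℝ) := Nat.cast_nonneg _
      linarith
    rw [this]
    exact Set.finite_empty
  · apply (Set.finite_Iic ⌊x⌋₊).subset
    rintro n ⟨hn, -⟩
    rw [Set.mem_Iic, Nat.le_floor_iff hx]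
    refine le_trans ?_ hn
    exact_mod_cast (Nat.nth_strictMono Nat.infinite_setOfPred_prime).le_apply

theorem gapSet_mono (d : ℤ) {x y : ℝ} (h : x ≤ y) : (gapSet d x).ncard ≤ (gapSet d y).ncard :=
  Set.ncard_le_ncard (fun _ hm => ⟨hm.1.trans h, hm.2⟩) (gapSet_finite d y)

/-- two primes `n + a i₀ < n + a j₀` and no further primes outside the tuple give consecutive primes -/
theorem consec_pair (a : Fin 43 → ℤ) (n : ℕ)
    (h1 : ∃ i j, i ≠ j ∧ ∃ p q : ℕ, p.Prime ∧ q.Prime ∧ (p : ℤ) = n + a i ∧ (q : ℤ) = n + a j)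
    (hinj : Function.Injective a)
    (h2 : ∀ p : ℕ, p.Prime → (∃ i j, (n : ℤ) + a i ≤ p ∧ (p : ℤ) ≤ n + a j) → ∃ i, (p : ℤ) = n + a i) :
    ∃ i j, a i < a j ∧ ∃ m : ℕ, (Nat.nth Nat.Prime m : ℤ) = n + a i ∧ (Nat.nth Nat.Prime (m + 1) : ℤ) = n + a j := by
  obtain ⟨i, j, p, q, hp, hq, hpi, hqj, hpq⟩ : ∃ i j, ∃ p q : ℕ, p.Prime ∧ q.Prime ∧ (p : ℤ) = n + a i ∧
      (q : ℤ) = n + a j ∧ p < q := by
    obtain ⟨i, j, hij, p, q, hp, hq, hpi, hqj⟩ := h1
    rcases lt_trichotomy p q with h | h | h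
    · exact ⟨i, j, p, q, hp, hq, hpi, hqj, h⟩
    · exfalso
      apply hij
      apply hinj
      have : (p : ℤ) = q := by rw [h]
      linarith
    · exact ⟨j, i, q, p, hq, hp, hqj, hpi, h⟩
  set m := Nat.count Nat.Prime p with hm
  have e1 : Nat.nth Nat.Prime m = p := Nat.nth_count hp
  have c1 : Nat.count Nat.Prime (p + 1) = m + 1 := by rw [Nat.count_succ, if_pos hp]
  have c2 : Nat.count Nat.Prime (p + 1) ≤ Nat.count Nat.Prime q := Nat.count_monotone _ (by omega)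
  have c3 : Nat.count Nat.Prime (q + 1) = Nat.count Nat.Prime q + 1 := by rw [Nat.count_succ, if_pos hq]
  have e2 : Nat.nth Nat.Prime (m + 1) < q + 1 := Nat.nth_lt_of_lt_count (by omega)
  have e3 : Nat.nth Nat.Prime m < Nat.nth Nat.Prime (m + 1) :=
    Nat.nth_strictMono Nat.infinite_setOfPred_prime (Nat.lt_succ_self m)
  have hr : (Nat.nth Nat.Prime (m + 1)).Prime := Nat.nth_mem_of_infinite Nat.infinite_setOfPred_prime _
  obtain ⟨k, hk⟩ := h2 _ hr ⟨i, j, by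
    have : (p : ℤ) < (Nat.nth Nat.Prime (m + 1) : ℕ) := by exact_mod_cast e1 ▸ e3
    linarith, by
    have : ((Nat.nth Nat.Prime (m + 1) : ℕ) : ℤ) ≤ q := by exact_mod_cast Nat.lt_succ_iff.mp e2
    linarith⟩
  refine ⟨i, k, ?_, m, ?_, hk⟩
  · have : (p : ℤ) < (Nat.nth Nat.Prime (m + 1) : ℕ) := by exact_mod_cast e1 ▸ e3
    linarith
  · rw [e1]; exact hpi

open Classical in
theorem gap_of_admissible (H : Dhl43Count) (a : Fin 43 → ℤ) (hinj : Function.Injective a)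
    (hadm : ∀ p : ℕ, p.Prime → ∃ r : ℤ, ∀ i, ¬ (p : ℤ) ∣ r + a i) :
    ∃ i j, a i < a j ∧ ∀ ε : ℝ, 0 < ε → ∃ᶠ x : ℝ in atTop, x ^ (1 - ε) ≤ ((gapSet (a j - a i) x).ncard : ℝ) := by
  by_contra hcon
  push Not at hcon
  have hpair : ∀ ij : Fin 43 × Fin 43, ∃ ε : ℝ, 0 < ε ∧ (a ij.1 < a ij.2 →
      ∀ᶠ x : ℝ in atTop, ((gapSet (a ij.2 - a ij.1) x).ncard : ℝ) < x ^ (1 - ε)) := by
    intro ij
    by_cases h : a ij.1 < a ij.2
    · obtain ⟨ε, hε, hx⟩ := hcon ij.1 ij.2 h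
      refine ⟨ε, hε, fun _ => ?_⟩
      filter_upwards [hx] with x hx
      exact hx
    · exact ⟨1, one_pos, fun h' => absurd h' h⟩
  choose e he0 he using hpair
  obtain ⟨ij0, -, hmin⟩ := Finset.exists_min_image (Finset.univ : Finset (Fin 43 × Fin 43)) e ⟨(0, 0), Finset.mem_univ _⟩
  set ε := e ij0 with hεdef
  have hε : 0 < ε := he0 ij0
  obtain ⟨δ, hδ, hasy⟩ := Y5_asy ε hε 1849 1
  -- bound on the shifts
  obtain ⟨A, hA⟩ : ∃ A : ℕ, ∀ i, a i ≤ A := by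
    obtain ⟨i0, -, hi0⟩ := Finset.exists_max_image (Finset.univ : Finset (Fin 43)) a ⟨0, Finset.mem_univ _⟩
    exact ⟨(a i0).toNat, fun i => (hi0 i (Finset.mem_univ _)).trans (Int.self_le_toNat _)⟩
  have hall : ∀ᶠ x : ℝ in atTop, ∀ ij : Fin 43 × Fin 43, a ij.1 < a ij.2 →
      ((gapSet (a ij.2 - a ij.1) x).ncard : ℝ) < x ^ (1 - e ij) := by
    rw [Filter.eventually_all]
    intro ij
    by_cases h : a ij.1 < a ij.2
    · filter_upwards [he ij h] with x hx _ using hx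
    · exact Filter.Eventually.of_forall fun x h' => absurd h' h
  have h2 : Tendsto (fun x : ℝ => x / 2) atTop atTop := tendsto_id.atTop_div_const (by norm_num)
  have hT := h2.eventually (consecutive43_of_count H a hinj hadm δ hδ)
  obtain ⟨x, hx1, hx2, hx3, hx4, hx5⟩ := (hT.and (hall.and (hasy.and
    ((eventually_ge_atTop (1 : ℝ)).and (eventually_ge_atTop (2 * (A : ℝ))))))).exists
  set S := ((Icc 1 ⌊x / 2⌋₊).filter (fun n : ℕ =>
      (∃ i j, i ≠ j ∧ ∃ p q : ℕ, p.Prime ∧ q.Prime ∧ (p : ℤ) = n + a i ∧ (q : ℤ) = n + a j) ∧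
      ∀ p : ℕ, p.Prime → (∃ i j, (n : ℤ) + a i ≤ p ∧ (p : ℤ) ≤ n + a j) → ∃ i, (p : ℤ) = n + a i)) with hS
  have hSsub : (S : Set ℕ) ⊆ ⋃ ij : Fin 43 × Fin 43, {n : ℕ | a ij.1 < a ij.2 ∧ (n : ℝ) ≤ x / 2 ∧
      ∃ m : ℕ, (Nat.nth Nat.Prime m : ℤ) = n + a ij.1 ∧ (Nat.nth Nat.Prime (m + 1) : ℤ) = n + a ij.2} := by
    intro n hn
    rw [Finset.mem_coe, hS, Finset.mem_filter, Finset.mem_Icc] at hn
    obtain ⟨⟨hn1, hn2⟩, hn3, hn4⟩ := hn
    obtain ⟨i, j, hij, m, hm⟩ := consec_pair a n hn3 hinj hn4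
    rw [Set.mem_iUnion]
    exact ⟨(i, j), hij, (Nat.le_floor_iff (by linarith)).mp hn2, m, hm⟩
  have hbnd : ∀ ij : Fin 43 × Fin 43, (({n : ℕ | a ij.1 < a ij.2 ∧ (n : ℝ) ≤ x / 2 ∧
      ∃ m : ℕ, (Nat.nth Nat.Prime m : ℤ) = n + a ij.1 ∧ (Nat.nth Nat.Prime (m + 1) : ℤ) = n + a ij.2}).ncard : ℝ) ≤
      x ^ (1 - ε) ∧ ({n : ℕ | a ij.1 < a ij.2 ∧ (n : ℝ) ≤ x / 2 ∧
      ∃ m : ℕ, (Nat.nth Nat.Prime m : ℤ) = n + a ij.1 ∧ (Nat.nth Nat.Prime (m + 1) : ℤ) = n + a ij.2}).Finite := by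
    intro ij
    by_cases h : a ij.1 < a ij.2
    · set U := {n : ℕ | a ij.1 < a ij.2 ∧ (n : ℝ) ≤ x / 2 ∧
        ∃ m : ℕ, (Nat.nth Nat.Prime m : ℤ) = n + a ij.1 ∧ (Nat.nth Nat.Prime (m + 1) : ℤ) = n + a ij.2} with hU
      have hUm : ∀ n ∈ U, ∃ m ∈ gapSet (a ij.2 - a ij.1) x, (Nat.nth Nat.Prime m : ℤ) = n + a ij.1 := by
        rintro n ⟨-, hnx, m, hm1, hm2⟩
        refine ⟨m, ⟨?_, by rw [hm1, hm2]; ring⟩, hm1⟩
        have : ((Nat.nth Nat.Prime m : ℕ) : ℤ) ≤ n + A := by rw [hm1]; linarith [hA ij.1]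
        have h3 : ((Nat.nth Nat.Prime m : ℕ) : ℝ) ≤ n + A := by exact_mod_cast this
        linarith
      choose! g hg1 hg2 using hUm
      have hginj : Set.InjOn g U := by
        intro n hn n' hn' hnn
        have e1 := hg2 n hn
        have e2 := hg2 n' hn'
        rw [hnn] at e1
        have : (n : ℤ) = n' := by linarith
        exact_mod_cast this
      have hfin : U.Finite := Set.Finite.of_injOn (fun n hn => hg1 n hn) hginj (gapSet_finite _ _)
      refine ⟨?_, hfin⟩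
      have h5 : U.ncard ≤ (gapSet (a ij.2 - a ij.1) x).ncard :=
        Set.ncard_le_ncard_of_injOn g (fun n hn => hg1 n hn) hginj (gapSet_finite _ _)
      have h6 : (U.ncard : ℝ) ≤ ((gapSet (a ij.2 - a ij.1) x).ncard : ℝ) := by exact_mod_cast h5
      refine h6.trans ((hx2 ij h).le.trans ?_)
      exact Real.rpow_le_rpow_of_exponent_le hx4 (by linarith [hmin ij (Finset.mem_univ _)])
    · have : {n : ℕ | a ij.1 < a ij.2 ∧ (n : ℝ) ≤ x / 2 ∧
        ∃ m : ℕ, (Nat.nth Nat.Prime m : ℤ) = n + a ij.1 ∧ (Nat.nth Nat.Prime (m + 1) : ℤ) = n + a ij.2} = ∅ := by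
        ext n
        simp [h]
      rw [this]
      exact ⟨by simp only [Set.ncard_empty, Nat.cast_zero]; exact Real.rpow_nonneg (by linarith) _, Set.finite_empty⟩
  have hcard : (S.card : ℝ) ≤ 1849 * x ^ (1 - ε) := by
    have h7 : S.card ≤ ∑ ij : Fin 43 × Fin 43, ({n : ℕ | a ij.1 < a ij.2 ∧ (n : ℝ) ≤ x / 2 ∧
      ∃ m : ℕ, (Nat.nth Nat.Prime m : ℤ) = n + a ij.1 ∧ (Nat.nth Nat.Prime (m + 1) : ℤ) = n + a ij.2}).ncard := by
      rw [← Set.ncard_coe_finset]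
      refine (Set.ncard_le_ncard hSsub (Set.finite_iUnion fun ij => (hbnd ij).2)).trans ?_
      have := Set.ncard_iUnion_le_of_fintype (fun ij : Fin 43 × Fin 43 => {n : ℕ | a ij.1 < a ij.2 ∧ (n : ℝ) ≤ x / 2 ∧
        ∃ m : ℕ, (Nat.nth Nat.Prime m : ℤ) = n + a ij.1 ∧ (Nat.nth Nat.Prime (m + 1) : ℤ) = n + a ij.2})
      exact this
    have h8 : (S.card : ℝ) ≤ ∑ ij : Fin 43 × Fin 43, (({n : ℕ | a ij.1 < a ij.2 ∧ (n : ℝ) ≤ x / 2 ∧
      ∃ m : ℕ, (Nat.nth Nat.Prime m : ℤ) = n + a ij.1 ∧ (Nat.nth Nat.Prime (m + 1) : ℤ) = n + a ij.2}).ncard : ℝ) := by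
      exact_mod_cast h7
    refine h8.trans ((Finset.sum_le_sum fun ij _ => (hbnd ij).1).trans ?_)
    rw [Finset.sum_const, Finset.card_univ, Fintype.card_prod, Fintype.card_fin, nsmul_eq_mul]
    norm_num
  have : (x / 2) ^ (1 - δ) ≤ 1849 * x ^ (1 - ε) := by
    refine le_trans ?_ hcard
    convert hx1
  linarith



theorem tup43_even (i : Fin 43) : 2 ∣ tup43 i := by
  fin_cases i <;> decide

theorem multiple_gap (H : Dhl43Count) (N : ℕ) (hN : 0 < N) :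
    ∃ k : ℕ, 1 ≤ k ∧ k ≤ 100 ∧ ∀ ε : ℝ, 0 < ε → ∃ᶠ x : ℝ in atTop,
      x ^ (1 - ε) ≤ ((gapSet ((k : ℤ) * (2 * N)) x).ncard : ℝ) := by
  obtain ⟨i, j, hij, h⟩ := gap_of_admissible H (fun i => (N : ℤ) * tup43 i) (by
      intro i j hij
      have h1 : (N : ℤ) * tup43 i = N * tup43 j := hij
      have h2 : (tup43 i : ℤ) = tup43 j := mul_left_cancel₀ (by exact_mod_cast hN.ne') h1
      exact tup43_admissible.1 (by exact_mod_cast h2)) (by
      intro p hp
      by_cases hpN : p ∣ N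
      · refine ⟨1, fun i hdvd => ?_⟩
        have h1 : (p : ℤ) ∣ (N : ℤ) * tup43 i := Dvd.dvd.mul_right (by exact_mod_cast hpN) _
        have h2 : (p : ℤ) ∣ 1 := (Int.dvd_iff_dvd_of_dvd_add hdvd).mpr h1
        have h3 : (p : ℕ) ∣ 1 := by exact_mod_cast h2
        exact hp.one_lt.ne' (Nat.dvd_one.mp h3)
      · obtain ⟨a0, ha0⟩ := tup43_admissible.2 p hp
        refine ⟨(N : ℤ) * a0, fun i hdvd => ?_⟩
        have h1 : (p : ℤ) ∣ (N : ℤ) * ((a0 + tup43 i : ℕ) : ℤ) := by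
          push_cast
          rw [mul_add]
          exact hdvd
        have h2 : p ∣ N * (a0 + tup43 i) := by exact_mod_cast h1
        rcases hp.dvd_mul.mp h2 with h3 | h3
        · exact hpN h3
        · exact ha0 i h3)
  have hlt : tup43 i < tup43 j := by
    have h1 : (N : ℤ) * tup43 i < N * tup43 j := hij
    have h2 : (tup43 i : ℤ) < tup43 j := lt_of_mul_lt_mul_left h1 (by positivity)
    exact_mod_cast h2
  obtain ⟨u, hu⟩ := tup43_even i
  obtain ⟨v, hv⟩ := tup43_even j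
  have hj := tup43_le j
  refine ⟨v - u, by omega, by omega, fun ε hε => ?_⟩
  have e : ((v - u : ℕ) : ℤ) * (2 * N) = (N : ℤ) * tup43 j - (N : ℤ) * tup43 i := by
    rw [Nat.cast_sub (by omega), hu, hv]
    push_cast
    ring
  rw [e]
  exact h ε hε

theorem remove_class (p : ℕ) (hp : 0 < p) (S : Finset ℤ) :
    ∃ S' ⊆ S, (∃ c : ℤ, ∀ s ∈ S', ¬ (p : ℤ) ∣ s - c) ∧ S.card ≤ S'.card + S.card / p := by
  classical
  by_contra hcon
  push Not at hcon
  have hp0 : (p : ℤ) ≠ 0 := by exact_mod_cast hp.ne'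
  have h1 : ∀ c ∈ Finset.range p, S.card / p + 1 ≤ (S.filter (fun s => s % p = (c : ℤ))).card := by
    intro c hcr
    have hcp : c < p := Finset.mem_range.mp hcr
    have h2 := hcon (S.filter (fun s => ¬ s % p = (c : ℤ))) (Finset.filter_subset _ _) ⟨c, fun s hs hd => by
      rw [Finset.mem_filter] at hs
      apply hs.2
      have h3 : s % p = (c : ℤ) % p := Int.ModEq.symm (Int.modEq_iff_dvd.mpr hd)
      rw [h3]
      exact Int.emod_eq_of_lt (by positivity) (by exact_mod_cast hcp)⟩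
    have h4 := Finset.card_filter_add_card_filter_not (s := S) (fun s => s % p = (c : ℤ))
    omega
  have h5 : S.card = ∑ c ∈ Finset.range p, (S.filter (fun s => s % p = (c : ℤ))).card := by
    have h6 := Finset.card_eq_sum_card_fiberwise (s := S) (t := Finset.range p) (f := fun s : ℤ => (s % p).toNat) (by
      intro s _
      rw [Finset.coe_range, Set.mem_Iio]
      show (s % p).toNat < p
      have h7 := Int.emod_nonneg s hp0
      have h8 := Int.emod_lt_of_pos s (by exact_mod_cast hp : (0 : ℤ) < p)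
      omega)
    rw [h6]
    apply Finset.sum_congr rfl
    intro c _
    congr 1
    ext s
    simp only [Finset.mem_filter, and_congr_right_iff]
    intro _
    have h7 := Int.emod_nonneg s hp0
    constructor
    · intro h; omega
    · intro h; omega
  have h9 : p * (S.card / p + 1) ≤ S.card := by
    calc p * (S.card / p + 1) = ∑ c ∈ Finset.range p, (S.card / p + 1) := by simp
      _ ≤ ∑ c ∈ Finset.range p, (S.filter (fun s => s % p = (c : ℤ))).card := Finset.sum_le_sum h1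
      _ = S.card := h5.symm
  have h10 := Nat.lt_mul_div_succ S.card hp
  have : p * (S.card / p + 1) = p * (S.card / p).succ := rfl
  omega

/-- avoiding one class modulo each prime `≤ 43` costs at most `273 → 43` -/
theorem admissible_subset (S : Finset ℤ) (hS : 273 ≤ S.card) :
    ∃ T ⊆ S, T.card = 43 ∧ ∀ p : ℕ, p.Prime → ∃ c : ℤ, ∀ s ∈ T, ¬ (p : ℤ) ∣ s - c := by
  classical
  obtain ⟨S1, s1, ⟨c1, hc1⟩, k1⟩ := remove_class 2 (by norm_num) S
  obtain ⟨S2, s2, ⟨c2, hc2⟩, k2⟩ := remove_class 3 (by norm_num) S1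
  obtain ⟨S3, s3, ⟨c3, hc3⟩, k3⟩ := remove_class 5 (by norm_num) S2
  obtain ⟨S4, s4, ⟨c4, hc4⟩, k4⟩ := remove_class 7 (by norm_num) S3
  obtain ⟨S5, s5, ⟨c5, hc5⟩, k5⟩ := remove_class 11 (by norm_num) S4
  obtain ⟨S6, s6, ⟨c6, hc6⟩, k6⟩ := remove_class 13 (by norm_num) S5
  obtain ⟨S7, s7, ⟨c7, hc7⟩, k7⟩ := remove_class 17 (by norm_num) S6
  obtain ⟨S8, s8, ⟨c8, hc8⟩, k8⟩ := remove_class 19 (by norm_num) S7
  obtain ⟨S9, s9, ⟨c9, hc9⟩, k9⟩ := remove_class 23 (by norm_num) S8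
  obtain ⟨S10, s10, ⟨c10, hc10⟩, k10⟩ := remove_class 29 (by norm_num) S9
  obtain ⟨S11, s11, ⟨c11, hc11⟩, k11⟩ := remove_class 31 (by norm_num) S10
  obtain ⟨S12, s12, ⟨c12, hc12⟩, k12⟩ := remove_class 37 (by norm_num) S11
  obtain ⟨S13, s13, ⟨c13, hc13⟩, k13⟩ := remove_class 41 (by norm_num) S12
  obtain ⟨S14, s14, ⟨c14, hc14⟩, k14⟩ := remove_class 43 (by norm_num) S13
  have h1 : 137 ≤ S1.card := by omega
  have h2 : 92 ≤ S2.card := by omega
  have h3 : 74 ≤ S3.card := by omega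
  have h4 : 64 ≤ S4.card := by omega
  have h5 : 59 ≤ S5.card := by omega
  have h6 : 55 ≤ S6.card := by omega
  have h7 : 52 ≤ S7.card := by omega
  have h8 : 50 ≤ S8.card := by omega
  have h9 : 48 ≤ S9.card := by omega
  have h10 : 47 ≤ S10.card := by omega
  have h11 : 46 ≤ S11.card := by omega
  have h12 : 45 ≤ S12.card := by omega
  have h13 : 44 ≤ S13.card := by omega
  have h14 : 43 ≤ S14.card := by omega
  obtain ⟨T, hT, hTc⟩ := Finset.exists_subset_card_eq h14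
  have t14 := hT
  have t13 := t14.trans s14
  have t12 := t13.trans s13
  have t11 := t12.trans s12
  have t10 := t11.trans s11
  have t9 := t10.trans s10
  have t8 := t9.trans s9
  have t7 := t8.trans s8
  have t6 := t7.trans s7
  have t5 := t6.trans s6
  have t4 := t5.trans s5
  have t3 := t4.trans s4
  have t2 := t3.trans s3
  have t1 := t2.trans s2
  refine ⟨T, t1.trans s1, hTc, fun p hp => ?_⟩
  by_cases hbig : 43 < p
  · -- a class is missed
    have hp0 : (p : ℤ) ≠ 0 := by exact_mod_cast hp.ne_zero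
    have hcard : (T.image (fun s : ℤ => (s % p).toNat)).card < (Finset.range p).card := by
      rw [Finset.card_range]
      exact lt_of_le_of_lt Finset.card_image_le (by omega)
    obtain ⟨c, hc, hcn⟩ := Finset.exists_mem_notMem_of_card_lt_card hcard
    refine ⟨c, fun s hs hd => hcn ?_⟩
    rw [Finset.mem_image]
    refine ⟨s, hs, ?_⟩
    have h3 : s % p = (c : ℤ) % p := Int.ModEq.symm ((Int.modEq_iff_dvd).mpr hd)
    rw [h3, Int.emod_eq_of_lt (by positivity) (by exact_mod_cast Finset.mem_range.mp hc)]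
    simp
  · have hp43 : p ≤ 43 := by omega
    interval_cases p <;> first
      | exact ⟨c1, fun s hs => hc1 s (t1 hs)⟩
      | exact ⟨c2, fun s hs => hc2 s (t2 hs)⟩
      | exact ⟨c3, fun s hs => hc3 s (t3 hs)⟩
      | exact ⟨c4, fun s hs => hc4 s (t4 hs)⟩
      | exact ⟨c5, fun s hs => hc5 s (t5 hs)⟩
      | exact ⟨c6, fun s hs => hc6 s (t6 hs)⟩
      | exact ⟨c7, fun s hs => hc7 s (t7 hs)⟩
      | exact ⟨c8, fun s hs => hc8 s (t8 hs)⟩
      | exact ⟨c9, fun s hs => hc9 s (t9 hs)⟩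
      | exact ⟨c10, fun s hs => hc10 s (t10 hs)⟩
      | exact ⟨c11, fun s hs => hc11 s (t11 hs)⟩
      | exact ⟨c12, fun s hs => hc12 s (t12 hs)⟩
      | exact ⟨c13, fun s hs => hc13 s (t13 hs)⟩
      | exact ⟨c14, fun s hs => hc14 s (t14 hs)⟩
      | (exfalso; revert hp; norm_num)

theorem difference_gap (H : Dhl43Count) (S : Finset ℤ) (hS : 273 ≤ S.card) :
    ∃ a ∈ S, ∃ b ∈ S, a < b ∧ ∀ ε : ℝ, 0 < ε → ∃ᶠ x : ℝ in atTop,
      x ^ (1 - ε) ≤ ((gapSet (b - a) x).ncard : ℝ) := by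
  obtain ⟨T, hTS, hT, hc⟩ := admissible_subset S hS
  set f := T.orderEmbOfFin hT with hf
  have hmem : ∀ i, f i ∈ T := fun i => Finset.orderEmbOfFin_mem T hT i
  obtain ⟨i, j, hij, h⟩ := gap_of_admissible H (fun i => f i) f.injective (by
    intro p hp
    obtain ⟨c, hc'⟩ := hc p hp
    refine ⟨-c, fun i hd => hc' _ (hmem i) ?_⟩
    rwa [neg_add_eq_sub] at hd)
  exact ⟨f i, hTS (hmem i), f j, hTS (hmem j), hij, h⟩


end Pool.Agent.J4H35.ZC
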