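import Mathlib
import Pool.Agent.J4H35.ZC.Final
import Pool.Agent.J4H35.ZC.Con43
import Pool.Agent.J4H35.ZC.Gap43

/-! consequences of `DHL[43,2]`, unconditional. -/

open Finset Filter

namespace Pool.Agent.J4H35.ZC

open Pool.Agent.H95R2.BG (Admissible TwoPrimes goodN)

/-- two primes in every admissible 43-tuple -/
theorem two43 (h : Fin 43 → ℕ) (hadm : Admissible h) : TwoPrimes h := two43_of_count dhl43 h hadm

open Classical in
/-- at least `x^(1-ε)` of the `n ≤ x` have two primes among `n + a i` and no other prime in the interval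
spanned -/
theorem dhl43_consecutive (a : Fin 43 → ℤ) (hinj : Function.Injective a)
    (hadm : ∀ p : ℕ, p.Prime → ∃ r : ℤ, ∀ i, ¬ (p : ℤ) ∣ r + a i) (ε : ℝ) (hε : 0 < ε) :
    ∀ᶠ x : ℝ in atTop, x ^ (1 - ε) ≤ (((Icc 1 ⌊x⌋₊).filter (fun n : ℕ =>
      (∃ i j, i ≠ j ∧ ∃ p q : ℕ, p.Prime ∧ q.Prime ∧ (p : ℤ) = n + a i ∧ (q : ℤ) = n + a j) ∧
      ∀ p : ℕ, p.Prime → (∃ i j, (n : ℤ) + a i ≤ p ∧ (p : ℤ) ≤ n + a j) → ∃ i, (p : ℤ) = n + a i)).card : ℝ) :=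
  consecutive43_of_count dhl43 a hinj hadm ε hε

/-- `H₁ ≤ 200` -/
theorem gaps200_infinite : {n : ℕ | Nat.nth Nat.Prime (n + 1) - Nat.nth Nat.Prime n ≤ 200}.Infinite :=
  gaps200_of_count_infinite dhl43

/-- `H₁ ≤ 200` -/
theorem liminf200 :
    Filter.liminf (fun n => ((Nat.nth Nat.Prime (n + 1) : ℝ) - (Nat.nth Nat.Prime n : ℝ))) Filter.atTop ≤ 200 :=
  liminf200_of_count dhl43

/-- some difference `≤ 200` occurs infinitely often -/
theorem diff200 : ∃ d : ℕ, 1 ≤ d ∧ d ≤ 200 ∧ {p : ℕ | p.Prime ∧ (p + d).Prime}.Infinite :=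
  diff200_of_count dhl43

open Classical in
/-- many gaps at most 200 -/
theorem gaps200 (ε : ℝ) (hε : 0 < ε) :
    ∀ᶠ x : ℝ in atTop, x ^ (1 - ε) ≤ (((Icc 1 ⌊x⌋₊).filter (fun n : ℕ =>
      Nat.nth Nat.Prime n ≤ x ∧ Nat.nth Nat.Prime (n + 1) - Nat.nth Nat.Prime n ≤ 200)).card : ℝ) :=
  gaps200_of_count dhl43 ε hε

/-- one of the differences of an admissible 43-tuple is a gap between consecutive primes, often -/
theorem gap43 (a : Fin 43 → ℤ) (hinj : Function.Injective a)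
    (hadm : ∀ p : ℕ, p.Prime → ∃ r : ℤ, ∀ i, ¬ (p : ℤ) ∣ r + a i) :
    ∃ i j, a i < a j ∧ ∀ ε : ℝ, 0 < ε → ∃ᶠ x : ℝ in atTop, x ^ (1 - ε) ≤ ((gapSet (a j - a i) x).ncard : ℝ) :=
  gap_of_admissible dhl43 a hinj hadm

/-- one of `2N, 4N, ..., 200N` is a gap between consecutive primes, often -/
theorem multiple_gap100 (N : ℕ) (hN : 0 < N) :
    ∃ k : ℕ, 1 ≤ k ∧ k ≤ 100 ∧ ∀ ε : ℝ, 0 < ε → ∃ᶠ x : ℝ in atTop,
      x ^ (1 - ε) ≤ ((gapSet ((k : ℤ) * (2 * N)) x).ncard : ℝ) :=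
  multiple_gap dhl43 N hN

/-- one of the differences of any 273 integers is a gap between consecutive primes, often -/
theorem difference_gap273 (S : Finset ℤ) (hS : 273 ≤ S.card) :
    ∃ a ∈ S, ∃ b ∈ S, a < b ∧ ∀ ε : ℝ, 0 < ε → ∃ᶠ x : ℝ in atTop,
      x ^ (1 - ε) ≤ ((gapSet (b - a) x).ncard : ℝ) :=
  difference_gap dhl43 S hS

end Pool.Agent.J4H35.ZC
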